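import Mathlib

set_option autoImplicit false

namespace Pool.Agent.Results.MP_2c59d0_an.Bounded

lemma decay {u w : ℕ → ℝ} {γ K M δ : ℝ} {τ T s : ℕ} (hγ : 0 < γ) (hγ1 : γ < 1) (hK : 2 ≤ K)
    (hδ : γ + 3 / K ≤ δ) (hM : M ≤ K ^ s) (hw : ∀ t, 0 < w t) (hwM : ∀ t ≤ T, w t ≤ M)
    (hr : ∀ t, w (t + 1) = γ + w t / u (t + 1)) (hu : ∀ t, τ ≤ t → t ≤ T → K ≤ u t) :
    ∀ t, τ + s + 1 ≤ t → t ≤ T → w t ≤ δ := by
  intro t h1 h2
  obtain ⟨t, rfl⟩ : ∃ t', t = t' + s + 1 := ⟨t - s - 1, by omega⟩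
  have hK0 : 0 < K := by linarith
  have step : ∀ j, t + j + 1 ≤ T → w (t + j + 1) ≤ γ + w (t + j) / K := fun j hj => by
    rw [hr]
    exact add_le_add le_rfl (div_le_div_of_nonneg_left (hw _).le hK0 (hu _ (by omega) hj))
  have key : ∀ j, t + j ≤ T → w (t + j) ≤ 2 * γ + M / K ^ j := by
    intro j
    induction j with
    | zero => intro h; simp only [add_zero, pow_zero, div_one]; linarith [hwM t h]
    | succ j ih =>
      intro h
      have a := step j h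
      have b := div_le_div_of_nonneg_right (ih (by omega)) hK0.le
      have c : 2 * γ / K ≤ γ := by rw [div_le_iff₀ hK0]; nlinarith
      rw [add_div, div_div, ← pow_succ] at b
      rw [← add_assoc]
      linarith
  have a := step s h2
  have b := key s (by omega)
  have c : M / K ^ s ≤ 1 := (div_le_one (by positivity)).2 hM
  have d : w (t + s) / K ≤ 3 / K := div_le_div_of_nonneg_right (by linarith) hK0.le
  linarith

lemma grow {u w : ℕ → ℝ} {γ K δ : ℝ} {τ T r : ℕ} (hγ : 0 < γ) (hδ : 0 < δ)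
    (hK : K * δ ^ r ≤ γ) (hw : ∀ t, γ ≤ w t) (hu0 : ∀ t, 0 < u t)
    (hr : ∀ t, w (t + 1) = γ + w t / u (t + 1)) (hu : ∀ t, τ ≤ t → t ≤ T → u t ≤ δ) :
    ∀ t, τ + r ≤ t → t ≤ T → K ≤ w t := by
  intro t h1 h2
  obtain ⟨t, rfl⟩ : ∃ t', t = t' + r := ⟨t - r, by omega⟩
  have key : ∀ j, t + j ≤ T → γ / δ ^ j ≤ w (t + j) := by
    intro j
    induction j with
    | zero => intro h; simpa using hw t
    | succ j ih =>
      intro h
      rw [← add_assoc, hr, pow_succ, ← div_div]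
      have a := div_le_div_of_nonneg_right (ih (by omega)) hδ.le
      have b := div_le_div_of_nonneg_left (hγ.le.trans (hw (t + j))) (hu0 _)
        (hu (t + j + 1) (by omega) h)
      linarith
  exact le_trans ((le_div_iff₀ (by positivity)).2 hK) (key r h2)

lemma small (γ : ℝ) (hγ : 0 < γ) (hγ1 : γ < 1) (m : ℕ) (y : ℕ → ℝ) (hy : ∀ n, γ ≤ y n)
    (hr : ∀ n, y (n + 2 * m + 3) = γ + y n / y (n + 2 * m + 1)) : ∃ C, ∀ n, y n ≤ C := by
  have y0 : ∀ n, 0 < y n := fun n => hγ.trans_le (hy n)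
  set ρ := 1 + 1 / γ with hρ
  have ρ1 : 1 ≤ ρ := by have := one_div_pos.2 hγ; linarith
  have hup : ∀ j n, y (n + (2 * m + 3) * j) ≤ ρ ^ j * y n := by
    intro j n
    induction j with
    | zero => simp
    | succ j ih =>
      rw [show n + (2 * m + 3) * (j + 1) = n + (2 * m + 3) * j + 2 * m + 3 by ring, hr, pow_succ']
      have a := div_le_div_of_nonneg_left (y0 (n + (2 * m + 3) * j)).le hγ
        (hy (n + (2 * m + 3) * j + 2 * m + 1))
      have b := hy (n + (2 * m + 3) * j)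
      have c : ρ * y (n + (2 * m + 3) * j) = y (n + (2 * m + 3) * j) + y (n + (2 * m + 3) * j) / γ := by
        rw [hρ]; ring
      have d := mul_le_mul_of_nonneg_left ih (by linarith : 0 ≤ ρ)
      rw [mul_assoc]
      linarith
  obtain ⟨M0, hM0⟩ := (Set.finite_range fun i : Fin (2 * m + 3) => y i).bddAbove
  set δ := (1 + γ) / 2 with hδ
  obtain ⟨K, k1, k2, k3, k4⟩ : ∃ K : ℝ, 2 ≤ K ∧ γ + 3 / K ≤ δ ∧ M0 < K ∧ ρ ^ (m + 3) ≤ K := by
    refine ⟨max (max 2 (6 / (1 - γ))) (max (M0 + 1) (ρ ^ (m + 3))), by simp, ?_,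
      lt_max_of_lt_right (lt_max_of_lt_left (by linarith)), by simp⟩
    have h1 : 0 < 1 - γ := by linarith
    have := div_le_div_of_nonneg_left (a := 3) (by norm_num) (div_pos (by norm_num : (0 : ℝ) < 6) h1)
      (le_max_of_le_left (le_max_right 2 _) :
        6 / (1 - γ) ≤ max (max 2 (6 / (1 - γ))) (max (M0 + 1) (ρ ^ (m + 3))))
    have e : 3 / (6 / (1 - γ)) = (1 - γ) / 2 := by field_simp; norm_num
    linarith
  have K0 : 0 < K := by linarith
  obtain ⟨r, hr'⟩ := exists_pow_lt_of_lt_one (div_pos hγ K0) (by linarith : δ < 1)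
  rw [lt_div_iff₀ K0, mul_comm] at hr'
  by_contra hun
  push Not at hun
  classical
  set s0 := 3 * (m + 3) + (m + 1) * r + 2 with hs0
  let n := Nat.find (hun (K ^ s0))
  have hn : K ^ s0 < y n := Nat.find_spec (hun (K ^ s0))
  have hmin : ∀ i ≤ n, y i ≤ y n := fun i hi => by
    rcases hi.eq_or_lt with rfl | h
    · rfl
    · exact (not_lt.1 (Nat.find_min (hun (K ^ s0)) h)).trans hn.le
  obtain ⟨s, s1, s2⟩ := exists_nat_pow_near (x := y n) (y := K)
    ((one_le_pow₀ (by linarith)).trans hn.le) (by linarith)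
  have s3 : s0 ≤ s := by
    have := (pow_lt_pow_iff_right₀ (by linarith : 1 < K)).1 (hn.trans s2)
    omega
  set T := (m + 2) * (s + 2) + (m + 1) * r with hT
  have big : K * ρ ^ (T + 2) ≤ y n := by
    refine le_trans ?_ s1
    obtain ⟨s', rfl⟩ : ∃ s', s = s' + 1 := ⟨s - 1, by omega⟩
    rw [pow_succ' K]
    refine mul_le_mul_of_nonneg_left ?_ K0.le
    calc ρ ^ (T + 2) ≤ ρ ^ ((m + 3) * s') := pow_le_pow_right₀ ρ1 (by nlinarith)
      _ = (ρ ^ (m + 3)) ^ s' := pow_mul _ _ _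
      _ ≤ K ^ s' := pow_le_pow_left₀ (by positivity) k4 _
  have nbig : (2 * m + 3) * (T + 2) ≤ n := by
    by_contra hc
    have a := hup (n / (2 * m + 3)) (n % (2 * m + 3))
    rw [Nat.mod_add_div] at a
    have b : y (n % (2 * m + 3)) ≤ M0 := hM0 ⟨⟨_, Nat.mod_lt _ (by omega)⟩, rfl⟩
    have c : ρ ^ (n / (2 * m + 3)) ≤ ρ ^ (T + 2) := pow_le_pow_right₀ ρ1
      (Nat.div_le_of_le_mul (by omega))
    have d := y0 (n % (2 * m + 3))
    have e : 0 < ρ ^ (T + 2) := by positivity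
    nlinarith
  obtain ⟨n0, hn0⟩ := Nat.exists_eq_add_of_le' nbig
  let u : ℕ → ℕ → ℝ := fun c t => y (n0 + 2 * c + (2 * m + 3) * t)
  have hu : ∀ c t, u (c + 1) (t + 1) = γ + u (c + 1) t / u c (t + 1) := by
    intro c t
    simp only [u]
    rw [show n0 + 2 * (c + 1) + (2 * m + 3) * (t + 1) =
      n0 + 2 * (c + 1) + (2 * m + 3) * t + 2 * m + 3 by ring, hr]
    congr 3
    ring
  have huM : ∀ c ≤ 2 * m + 3, ∀ t ≤ T, u c t ≤ y n := fun c hc t ht =>
    hmin _ (by rw [hn0]; nlinarith)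
  have main : ∀ j ≤ m + 1, ∀ t, j * (s + 2 + r) ≤ t → t ≤ T → K ≤ u (2 * j) t := by
    intro j
    induction j with
    | zero =>
      intro _ t _ ht
      obtain ⟨d, hd⟩ := Nat.exists_eq_add_of_le (ht.trans (Nat.le_add_right T 2))
      have a := hup d (n0 + (2 * m + 3) * t)
      rw [add_assoc, ← mul_add, ← hd, ← hn0] at a
      have c : ρ ^ d ≤ ρ ^ (T + 2) := pow_le_pow_right₀ ρ1 (by omega)
      have d := y0 (n0 + (2 * m + 3) * t)
      have e : 0 < ρ ^ (T + 2) := by positivity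
      simp only [u, mul_zero, add_zero]
      nlinarith
    | succ j ih =>
      intro hj t h1 h2
      refine grow (u := u (2 * j + 1)) (w := u (2 * j + 1 + 1)) (τ := j * (s + 2 + r) + (s + 1) + 1)
        hγ (by linarith) hr'.le (fun _ => hy _) (fun _ => y0 _) (hu _) ?_ t (by linarith) h2
      exact decay hγ hγ1 k1 k2 s2.le (fun _ => y0 _) (huM _ (by omega)) (hu _) (ih (by omega))
  have fin := decay hγ hγ1 k1 k2 s2.le (fun _ => y0 _) (huM (2 * (m + 1) + 1) (by omega)) (hu _)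
    (main (m + 1) le_rfl) T (by rw [hT]; nlinarith) le_rfl
  have e : u (2 * (m + 1) + 1) T = y n := by
    simp only [u]
    rw [hn0]
    congr 1
    ring
  have : 1 ≤ K ^ s0 := one_le_pow₀ (by linarith)
  linarith

lemma large (γ : ℝ) (hγ : 1 ≤ γ) (m : ℕ) (y : ℕ → ℝ) (hy : ∀ n, γ < y n)
    (hr : ∀ n, y (n + 2 * m + 3) = γ + y n / y (n + 2 * m + 1)) : ∃ C, ∀ n, y n ≤ C := by
  obtain ⟨ε, e0, e1, he⟩ : ∃ ε : ℝ, 0 < ε ∧ ε ≤ 1 ∧ ∀ i : Fin (2 * m + 3),
      γ + ε ≤ y i ∧ y i ≤ (γ + ε) / ε := by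
    have h1 : ∀ i : Fin (2 * m + 3), ∀ᶠ ε in nhdsWithin (0 : ℝ) (Set.Ioi 0),
        γ + ε ≤ y i ∧ y i ≤ (γ + ε) / ε := by
      intro i
      have := hy i
      have p : 0 < min (y i - γ) (1 / y i) := lt_min (by linarith) (one_div_pos.2 (by linarith))
      filter_upwards [Ioo_mem_nhdsGT p] with ε ⟨a, b⟩
      rw [lt_min_iff, lt_div_iff₀ (by linarith)] at b
      exact ⟨by linarith, (le_div_iff₀ a).2 (by linarith)⟩
    have h2 : ∀ᶠ ε in nhdsWithin (0 : ℝ) (Set.Ioi 0), ε ∈ Set.Ioo (0 : ℝ) 1 := Ioo_mem_nhdsGT one_pos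
    obtain ⟨ε, ⟨a, b⟩, c⟩ := (h2.and (Filter.eventually_all.2 h1)).exists
    exact ⟨ε, a, b.le, c⟩
  refine ⟨(γ + ε) / ε, fun n => ?_⟩
  suffices h : γ + ε ≤ y n ∧ y n ≤ (γ + ε) / ε from h.2
  induction n using Nat.strong_induction_on with
  | _ n ih =>
    rcases lt_or_ge n (2 * m + 3) with c | c
    · exact he ⟨n, c⟩
    obtain ⟨n, rfl⟩ := Nat.exists_eq_add_of_le' c
    obtain ⟨a1, a2⟩ := ih n (by omega)
    obtain ⟨b1, b2⟩ := ih (n + 2 * m + 1) (by omega)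
    have p : 0 < y (n + 2 * m + 1) := by linarith
    rw [← add_assoc, hr]
    rw [le_div_iff₀ e0] at a2 b2 ⊢
    constructor
    · have : ε ≤ y n / y (n + 2 * m + 1) := by rw [le_div_iff₀ p]; linarith
      linarith
    · have : y n / y (n + 2 * m + 1) * ε ≤ 1 := by
        rw [div_mul_eq_mul_div, div_le_one p]; linarith
      nlinarith

theorem result (γ : ℝ) (hγ : 0 < γ) (m : ℕ) (hm : 1 ≤ m) (x : ℤ → ℝ)
    (h0 : ∀ n : ℤ, -(2 * m : ℤ) ≤ n → n ≤ 0 → 0 < x n)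
    (hx : ∀ n : ℤ, 0 ≤ n → x (n + 1) = γ + x (n - 2 * m) / x (n - 1)) :
    ∃ C : ℝ, ∀ n : ℤ, -(2 * m : ℤ) ≤ n → |x n| ≤ C := by
  have pos : ∀ k : ℕ, 0 < x (k - 2 * m) := by
    intro k
    induction k using Nat.strong_induction_on with
    | _ k ih =>
      rcases le_or_gt k (2 * m) with c | c
      · exact h0 _ (by omega) (by omega)
      · have a := ih (k - 2 * m - 1) (by omega)
        have b := ih (k - 2) (by omega)
        have e := hx (k - 2 * m - 1) (by omega)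
        rw [sub_add_cancel] at e
        rw [show ((k - 2 * m - 1 : ℕ) : ℤ) = k - 2 * m - 1 by omega] at a
        rw [show ((k - 2 : ℕ) : ℤ) - 2 * m = k - 2 * m - 1 - 1 by omega] at b
        rw [e]
        positivity
  have pos' : ∀ n : ℤ, -(2 * m : ℤ) ≤ n → 0 < x n := fun n hn => by
    have := pos (n + 2 * m).toNat
    rwa [show (((n + 2 * m).toNat : ℕ) : ℤ) - 2 * m = n by omega] at this
  obtain ⟨k, rfl⟩ : ∃ k, m = k + 1 := ⟨m - 1, by omega⟩
  have hy : ∀ n : ℕ, γ < x (n + 1) := fun n => by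
    rw [hx n (by omega)]
    exact lt_add_of_pos_right _ (div_pos (pos' _ (by omega)) (pos' _ (by omega)))
  have hr : ∀ n : ℕ, x ((n + 2 * k + 3 : ℕ) + 1) =
      γ + x (n + 1) / x ((n + 2 * k + 1 : ℕ) + 1) := fun n => by
    rw [hx _ (by omega)]
    congr 3 <;> push_cast <;> ring
  obtain ⟨C, hC⟩ : ∃ C, ∀ n : ℕ, x (n + 1) ≤ C := by
    rcases lt_or_ge γ 1 with c | c
    · exact small γ hγ c k (fun n => x (n + 1)) (fun n => (hy n).le) hr
    · exact large γ c k (fun n => x (n + 1)) hy hr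
  obtain ⟨D, hD⟩ := ((Set.finite_Icc (-(2 * (k + 1 : ℕ) : ℤ)) 0).image x).bddAbove
  refine ⟨max C D, fun n hn => ?_⟩
  rw [abs_of_pos (pos' n hn)]
  rcases le_or_gt n 0 with c | c
  · exact le_max_of_le_right (hD ⟨n, ⟨hn, c⟩, rfl⟩)
  · have := hC (n - 1).toNat
    rw [show (((n - 1).toNat : ℕ) : ℤ) + 1 = n by omega] at this
    exact le_max_of_le_left this

end Pool.Agent.Results.MP_2c59d0_an.Bounded
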